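import Mathlib
import Pool.Agent.U327.Sponge

set_option autoImplicit false

/-!
# Guth's sponge problem for topological embeddings

Every open set `U` of `ℝⁿ` of volume at most one has a length-increasing embedding into the unit
ball, for every `n ≥ 1`.  For `n ≥ 2` no bound for the volume is needed, and every nonconstant
rectifiable curve in `U` gets an image of infinite length.

Proof for `n ≥ 2`.  The continuous function `B(x) = ∑ 2^(-k) cos(π 16^k x)` has unbounded variation on
every interval, so a continuous function `x(t)` for which `B(x(t))` has bounded variation is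
constant.  Let `F(x) = z` with `z_i = x_i + B(x_(i-1))` for `i ≥ 1` and `z_0 = x_0 + B(z_(n-1))`.  This
is an embedding of `ℝⁿ`.  If a curve and its image have bounded variation, then so have
`B(x_(i-1)) = z_i - x_i` and `B(z_(n-1)) = z_0 - x_0`, hence `x_0, …, x_(n-2)` and
`z_(n-1) = x_(n-1) + B(x_(n-2))` are constant and the curve is constant.  Finally one applies
`arctan / (2 n)` to the coordinates.

For `n = 1` one takes `f(x) = vol (U ∩ (-∞, x])`, which preserves the length of all curves in `U`.
-/

open Set Topology MeasureTheory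
open scoped ENNReal
open Pool.Agent.U327.Sponge (E length)

namespace Pool.Agent.Results.MP_ecd4e3_gt.ShearedSponge

/-- `E n` is the Euclidean space `ℝⁿ` and `length γ a b` is the length (total variation) of the
curve `γ` restricted to `[a, b]`.  Q1 asks for such an `f` when the volume of `U` is at most some
positive `ε_n`; here the volume is at most one, or arbitrary if `n ≥ 2`. -/
theorem result (n : ℕ) (hn : 1 ≤ n) (U : Set (E n)) (hU : IsOpen U)
    (hvol : volume U ≤ 1 ∨ 2 ≤ n) :
    ∃ f : U → E n, IsEmbedding f ∧ (∀ x, ‖f x‖ ≤ 1) ∧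
      ∀ (a b : ℝ) (γ : ℝ → U), ContinuousOn γ (Icc a b) →
        length (fun t => (γ t : E n)) a b ≠ ⊤ →
          length (fun t => (γ t : E n)) a b ≤ length (fun t => f (γ t)) a b ∧
          (2 ≤ n → (∃ s ∈ Icc a b, ∃ t ∈ Icc a b, γ s ≠ γ t) →
            length (fun t => f (γ t)) a b = ⊤) := by
  rcases Nat.lt_or_ge n 2 with h | h
  · obtain rfl : n = 1 := by omega
    have hvol1 : volume U ≤ 1 := by
      rcases hvol with h' | h'
      · exact h'
      · omega
    exact ⟨Pool.Agent.U327.Sponge.f1 U, Pool.Agent.U327.Sponge.embedding_f1 hU hvol1,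
      Pool.Agent.U327.Sponge.norm_f1 hU hvol1, fun a b γ hc _ =>
        ⟨Pool.Agent.U327.Sponge.length_f1 hU hvol1 hc, fun h' => by omega⟩⟩
  · obtain ⟨m, rfl⟩ : ∃ m, n = m + 2 := ⟨n - 2, by omega⟩
    refine ⟨fun x => Pool.Agent.U327.Sponge.G m x,
      (Pool.Agent.U327.Sponge.embedding_G m).comp IsEmbedding.subtypeVal,
      fun x => Pool.Agent.U327.Sponge.norm_G m x, ?_⟩
    intro a b γ hc hl
    have key : (∃ s ∈ Icc a b, ∃ t ∈ Icc a b, γ s ≠ γ t) →
        length (fun t => Pool.Agent.U327.Sponge.G m (γ t)) a b = ⊤ := by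
      rintro ⟨s, hs, t, ht, hst⟩
      exact Pool.Agent.U327.Sponge.length_G m (γ := fun t => (γ t : E (m + 2)))
        (continuous_subtype_val.comp_continuousOn hc) hl
        ⟨s, hs, t, ht, fun h' => hst (Subtype.ext h')⟩
    refine ⟨?_, fun _ => key⟩
    by_cases hcon : ∃ s ∈ Icc a b, ∃ t ∈ Icc a b, γ s ≠ γ t
    · rw [key hcon]
      exact le_top
    · push Not at hcon
      have h0 : length (fun t => (γ t : E (m + 2))) a b = 0 := by
        apply eVariationOn.constant_on
        rintro _ ⟨s, hs, rfl⟩ _ ⟨t, ht, rfl⟩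
        simp only
        rw [hcon s hs t ht]
      rw [h0]
      exact zero_le

end Pool.Agent.Results.MP_ecd4e3_gt.ShearedSponge
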